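import Pool.Agent.H252.MD.All

/-!
# MP_c00d13_an: `rc (C*(ℤ, X, h)) ≤ mdim(h) / 2` for every extension of an infinite minimal system

Both questions Q1 and Q2 have a positive answer; the hypothesis that the crossed product is finite
is not needed. The definitions are in `Pool.Agent.H252.MD.Defs`.
-/

set_option autoImplicit false

namespace Pool.Agent.Results.MP_c00d13_an.HalfMeanDimension

open Pool.Agent.H252.MD

open scoped ENNReal

/-- Let `h : X → X` be a homeomorphism of a compact metric space which has a factor `(Y, k)` with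
`Y` infinite and `k` minimal, and let `A` be the crossed product `C*(ℤ, X, h)`. Then the radius of
comparison of `A` is at most `mdim(h) / 2`, and hence at most `1 + 36 mdim(h)`. -/
theorem result (X Y : Type) [MetricSpace X] [CompactSpace X] [MetricSpace Y] [CompactSpace Y]
    [Infinite Y] (h : X ≃ₜ X) (k : Y ≃ₜ Y) (g : C(X, Y)) (hgs : Function.Surjective g)
    (hg : ∀ x, g (h x) = k (g x)) (hk : IsMinimal k) (A : Type) [CStarAlgebra A]
    (ι : C(X, ℂ) →⋆ₐ[ℂ] A) (u : A) (hA : IsCrossedProduct h ι u) :
    rc A ≤ mdim h / 2 ∧ rc A ≤ 1 + 36 * mdim h :=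
  rc_le X Y h k g hgs hg hk A ι u hA

end Pool.Agent.Results.MP_c00d13_an.HalfMeanDimension
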